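import Mathlib
import Pool.Agent.Helper34.NQ.B7

/-!
# Oppermann's intervals: both parities of the number of prime factors, next to almost all squares

A prime number has an odd number of prime factors. For almost all `x` the windows of length `H ≥ C √x` next to
the endpoints `x ^ 2`, `x ^ 2 - x`, `x ^ 2 + x` of the intervals of Oppermann (more generally next to the values of any
quadratic polynomial) contain integers with an odd number and integers with an even number of prime factors; for
`H ≥ x ^ (1 / 2 + δ)` both have positive proportion. The windows are much shorter than the intervals of Oppermann,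
which have length `x`; all these windows together cover only a small part, about `x ^ (-1 / 2)`, of the integers, so that
theorems about almost all intervals do not apply.

Method. If `q` is squarefree then the multiples of `q` in the window `(x ^ 2, x ^ 2 + H]` correspond to a window of length
`H / q` next to `x ^ 2 / q`. For the `q` of a dyadic block `(Q, 2 Q]` and `x` in `(X, 2 X]` these windows cover the
integers up to `X ^ 2 / Q` about `Q H / X` times, and they are distributed evenly enough: the second moment is bounded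
by the number of the points `(x, y)` next to the lines of slope `√(q / r)`, which is small because `r x ^ 2 ≠ q y ^ 2`
and the slopes of primitive points are well spaced. So the theorem of Matomäki and Radziwiłł about almost all short
windows (starting files) applies to almost all pairs `(x, q)`. For the count only primes `q > X ^ (1 / 4)` are used: an
integer of the size of `X ^ 2` has at most nine such prime factors.
-/

set_option autoImplicit false

namespace Pool.Agent.Results.MP_bf4c7f_nt.BothParitiesNearSquares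
open Finset

/-- The number of the `n` with `y < n ≤ y + H` for which the Liouville function `(-1) ^ Ω(n)` has the value `σ`. -/
noncomputable def count (y : ℤ) (H : ℕ) (σ : ℤ) : ℕ :=
  ((Ioc y (y + H)).filter (fun n => (-1 : ℤ) ^ ArithmeticFunction.cardFactors n.natAbs = σ)).card

/-- Let `a ≥ 1`, `b` and `K` be given integers. For every `ε > 0` there are `C ≥ 1` and `c > 0` such that for all large `X`,
all `H` with `C √X ≤ H ≤ X` and all integers `g` with `|g| ≤ K H`: with the exception of at most `ε X` integers `x`, each `x` in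
`(X, 2 X]` is such that the window `(a x² + b x + g, a x² + b x + g + H]` contains an integer, and at least
`c (log (H / (C √(X log X))) / log X) H` integers, with an even number of prime factors, and the same for an odd number of
prime factors. -/
theorem result (a : ℕ) (ha : 1 ≤ a) (b : ℤ) (K : ℕ) (ε : ℝ) (hε : 0 < ε) :
    ∃ C c : ℝ, 1 ≤ C ∧ 0 < c ∧ ∃ X₀ : ℕ, ∀ X : ℕ, X₀ ≤ X → ∀ H : ℕ, C * √X ≤ H → H ≤ X → ∀ g : ℤ, |g| ≤ K * H →
      (Nat.card {x : ℕ | X < x ∧ x ≤ 2 * X ∧ ∃ σ : ℤ, (σ = 1 ∨ σ = -1) ∧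
        (count (a * (x : ℤ) ^ 2 + b * x + g) H σ = 0 ∨ (count (a * (x : ℤ) ^ 2 + b * x + g) H σ : ℝ) <
          c * (Real.log (H / (C * √(X * Real.log X))) / Real.log X) * H)} : ℝ) ≤ ε * X := by
  classical
  obtain ⟨C1, c, hC1, hc, X₁, h1⟩ := Pool.Agent.Helper34.NQ.finalQ a ha b K (ε / 2) (by positivity)
  obtain ⟨C2, hC2, X₂, h2⟩ := Pool.Agent.Helper34.NQ.finalS a ha b K (ε / 2) (by positivity)
  refine ⟨C1 + C2, c, by linarith, hc, X₁ + X₂ + 3, ?_⟩
  intro X hX H hH hHX g hg
  have hX3 : (3 : ℝ) ≤ X := by exact_mod_cast (by omega : 3 ≤ X)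
  have hX0 : (0 : ℝ) < X := by linarith
  have hlX : 0 < Real.log X := Real.log_pos (by linarith)
  have hsX : 0 < √(X : ℝ) := Real.sqrt_pos.2 hX0
  have hsl : 0 < √(X * Real.log X) := Real.sqrt_pos.2 (by positivity)
  have hH0 : (0 : ℝ) < H := lt_of_lt_of_le (by positivity) hH
  have hHC2 : C2 * √X ≤ H := by
    refine le_trans ?_ hH
    gcongr
    linarith
  obtain ⟨E2, hE2⟩ : ∃ E, E = (Ioc X (2 * X)).filter (fun x => ∃ σ : ℤ, (σ = 1 ∨ σ = -1) ∧
        ¬ ∃ n ∈ Ioc (Pool.Agent.Helper34.NQ.fq a b g x) (Pool.Agent.Helper34.NQ.fq a b g x + H),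
          Pool.Agent.Helper34.NQ.lam n = σ) := ⟨_, rfl⟩
  have g2 : (E2.card : ℝ) ≤ ε / 2 * X := by
    rw [hE2]
    exact h2 X (by omega) H hHC2 hHX g hg
  obtain ⟨E1, hE1⟩ : ∃ E, E = (Ioc X (2 * X)).filter (fun x => ∃ σ : ℤ, (σ = 1 ∨ σ = -1) ∧
        (((Ioc (Pool.Agent.Helper34.NQ.fq a b g x) (Pool.Agent.Helper34.NQ.fq a b g x + H)).filter
          (fun n => Pool.Agent.Helper34.NQ.lam n = σ)).card : ℝ) <
            c * (Real.log (H / ((C1 + C2) * √(X * Real.log X))) / Real.log X) * H) := ⟨_, rfl⟩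
  have g1 : (E1.card : ℝ) ≤ ε / 2 * X := by
    by_cases hR : C1 * √(X * Real.log X) ≤ H
    · obtain ⟨R, hRd⟩ : ∃ R : ℝ, R = H / √(X * Real.log X) := ⟨_, rfl⟩
      have hR1 : C1 ≤ R := by
        rw [hRd, le_div_iff₀ hsl]
        exact hR
      have hR2 : R * √(X * Real.log X) ≤ H := by
        rw [hRd, div_mul_cancel₀ _ hsl.ne']
      refine le_trans ?_ (h1 X (by omega) H R hR1 hR2 hHX g hg)
      have hsub : E1 ⊆ (Ioc X (2 * X)).filter (fun x => ∃ σ : ℤ, (σ = 1 ∨ σ = -1) ∧
        (((Ioc (Pool.Agent.Helper34.NQ.fq a b g x) (Pool.Agent.Helper34.NQ.fq a b g x + H)).filter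
          (fun n => Pool.Agent.Helper34.NQ.lam n = σ)).card : ℝ) < c * (Real.log R / Real.log X) * H) := by
        intro x hx
        rw [hE1, mem_filter] at hx
        obtain ⟨hx1, σ, hσ, hx2⟩ := hx
        rw [mem_filter]
        refine ⟨hx1, σ, hσ, lt_of_lt_of_le hx2 ?_⟩
        have e1 : (H : ℝ) / ((C1 + C2) * √(X * Real.log X)) ≤ R := by
          rw [hRd]
          apply div_le_div_of_nonneg_left hH0.le hsl
          exact le_mul_of_one_le_left hsl.le (by linarith)
        have e2 := Real.log_le_log (by positivity) e1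
        gcongr
      exact_mod_cast card_le_card hsub
    · push Not at hR
      have hemp : E1 = ∅ := by
        rw [eq_empty_iff_forall_notMem]
        intro x hx
        rw [hE1, mem_filter] at hx
        obtain ⟨hx1, σ, hσ, hx2⟩ := hx
        have e1 : (H : ℝ) / ((C1 + C2) * √(X * Real.log X)) ≤ 1 := by
          rw [div_le_one (by positivity)]
          refine hR.le.trans ?_
          gcongr
          linarith
        have e2 : Real.log (H / ((C1 + C2) * √(X * Real.log X))) ≤ 0 := Real.log_nonpos (by positivity) e1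
        have e3 : c * (Real.log (H / ((C1 + C2) * √(X * Real.log X))) / Real.log X) * H ≤ 0 := by
          apply mul_nonpos_of_nonpos_of_nonneg _ hH0.le
          apply mul_nonpos_of_nonneg_of_nonpos hc.le
          exact div_nonpos_of_nonpos_of_nonneg e2 hlX.le
        have e4 : (0 : ℝ) ≤ (((Ioc (Pool.Agent.Helper34.NQ.fq a b g x) (Pool.Agent.Helper34.NQ.fq a b g x + H)).filter
          (fun n => Pool.Agent.Helper34.NQ.lam n = σ)).card : ℝ) := Nat.cast_nonneg _
        linarith
      rw [hemp, card_empty, Nat.cast_zero]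
      positivity
  have hsub : {x : ℕ | X < x ∧ x ≤ 2 * X ∧ ∃ σ : ℤ, (σ = 1 ∨ σ = -1) ∧
        (count (a * (x : ℤ) ^ 2 + b * x + g) H σ = 0 ∨ (count (a * (x : ℤ) ^ 2 + b * x + g) H σ : ℝ) <
          c * (Real.log (H / ((C1 + C2) * √(X * Real.log X))) / Real.log X) * H)} ⊆ ((E1 ∪ E2 : Finset ℕ) : Set ℕ) := by
    rintro x ⟨x1, x2, σ, hσ, h⟩
    rw [mem_coe, mem_union]
    rcases h with h | h
    · right
      rw [hE2, mem_filter, mem_Ioc]
      refine ⟨⟨x1, x2⟩, σ, hσ, ?_⟩
      rintro ⟨n, hn1, hn2⟩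
      unfold count at h
      rw [card_eq_zero] at h
      have : n ∈ (∅ : Finset ℤ) := by
        rw [← h, mem_filter]
        exact ⟨hn1, hn2⟩
      exact absurd this (notMem_empty n)
    · left
      rw [hE1, mem_filter, mem_Ioc]
      exact ⟨⟨x1, x2⟩, σ, hσ, h⟩
  have hcard : Nat.card {x : ℕ | X < x ∧ x ≤ 2 * X ∧ ∃ σ : ℤ, (σ = 1 ∨ σ = -1) ∧
        (count (a * (x : ℤ) ^ 2 + b * x + g) H σ = 0 ∨ (count (a * (x : ℤ) ^ 2 + b * x + g) H σ : ℝ) <
          c * (Real.log (H / ((C1 + C2) * √(X * Real.log X))) / Real.log X) * H)} ≤ (E1 ∪ E2).card := by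
    have h3 := Nat.card_mono (finite_toSet (E1 ∪ E2)) hsub
    have h4 : Nat.card ((E1 ∪ E2 : Finset ℕ) : Set ℕ) = (E1 ∪ E2).card := Nat.card_eq_finsetCard (E1 ∪ E2)
    rwa [h4] at h3
  have h4 : ((E1 ∪ E2).card : ℝ) ≤ E1.card + E2.card := by exact_mod_cast card_union_le E1 E2
  have h5 : (Nat.card {x : ℕ | X < x ∧ x ≤ 2 * X ∧ ∃ σ : ℤ, (σ = 1 ∨ σ = -1) ∧
        (count (a * (x : ℤ) ^ 2 + b * x + g) H σ = 0 ∨ (count (a * (x : ℤ) ^ 2 + b * x + g) H σ : ℝ) <
          c * (Real.log (H / ((C1 + C2) * √(X * Real.log X))) / Real.log X) * H)} : ℝ) ≤ ((E1 ∪ E2).card : ℝ) := by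
    exact_mod_cast hcard
  linarith

end Pool.Agent.Results.MP_bf4c7f_nt.BothParitiesNearSquares
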