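import Mathlib
import Pool.Agent.Helper34.EK.A
import Pool.Agent.Helper34.EK.B
import Pool.Agent.Helper34.EK.R
import Pool.Agent.Helper34.EK.V4
import Pool.Agent.Helper34.EK.V5
import Pool.Agent.Helper34.EK.W2
import Pool.Agent.Helper34.EK.G
import Pool.Agent.Helper34.EK.F

/-!
# Integers with exactly `k ≥ 3` prime factors in all parts of both Oppermann intervals, for all but `O(x ^ ε)` integers `n ≤ x`

Oppermann's conjecture says that both intervals `(n ^ 2 - n, n ^ 2)`, `(n ^ 2, n ^ 2 + n)` contain integers with exactly one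
prime factor. We show that for every `k ≥ 3` and all `n ≤ x` but `O(x ^ ε)` not only the two intervals, but all their parts of
length at least `κ n` contain integers with exactly `k` prime factors, all of which are larger than `n ^ δ`, and that their
number is at least `c h / log n`, the right order of magnitude. The results of this kind for the primes themselves
have a positive power of `x` in place of `x ^ ε`. In general, of the disjoint windows of length `H ≤ √Y` in `[Y, 9 Y]` at
most `C Y ^ ε (Y / H ^ 2) ^ 2` contain fewer than `c H / log Y` integers with exactly `k` prime factors larger than `Y ^ δ`.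

Method. We count the products `q a p` where `q` is a product of `k - 2` primes, `q` about `H / Y ^ ε`, `a` is a prime, `a` about
`Y ^ (ε / 2)`, and `p` is a prime. For a window `(y, y + H]` the products with a given `q` correspond to the products
`a p` in the window of length `H / q` next to `y / q`. For an arbitrary set of `s ^ 2` windows, `s ≥ Y / (H Q)`,
these short windows are distributed evenly: the number of the quadruples of two windows and two divisors whose short
windows have a common point is of the expected size (the slopes are well spaced; the pairs of divisors with a large greatest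
common divisor are counted by means of the distance of the windows). So it is enough to know the number of
the products `a p` in almost all windows of length `Y ^ (ε / 4) a`. The second moment is bounded by Parseval's identity for
the Fourier transform in `log n` (Fejér kernel, window bounded below), the sum over the primes `a`
with the oscillation `a ^ (i τ)` being small by Vinogradov's zero free region for `1 / (log τ) ^ K < |τ| ≤ Y ^ A`, and the
sum over the primes `p` minus the sum over the integers being small for all `τ`.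
-/

set_option autoImplicit false

namespace Pool.Agent.Results.MP_bf4c7f_nt.ExactlyKPrimes
open Finset

/-- The number of the integers `m` with `u < m ≤ u + h` which have exactly `k` prime factors (counted with multiplicity),
all larger than `z`. -/
noncomputable def count (k : ℕ) (z : ℝ) (u h : ℕ) : ℕ :=
  Nat.card {m : ℕ | u < m ∧ m ≤ u + h ∧ ArithmeticFunction.cardFactors m = k ∧ ∀ p : ℕ, p.Prime → p ∣ m → z < p}

lemma count_eq (k : ℕ) (z : ℝ) (u h : ℕ) : Pool.Agent.Helper34.EK.cE k z u h = count k z u h := by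
  classical
  unfold count Pool.Agent.Helper34.EK.cE
  rw [← Nat.card_eq_finsetCard]
  congr 1
  have : {m : ℕ | u < m ∧ m ≤ u + h ∧ ArithmeticFunction.cardFactors m = k ∧ ∀ p : ℕ, p.Prime → p ∣ m → z < p} =
      (((Ioc u (u + h)).filter (fun n => ArithmeticFunction.cardFactors n = k ∧ ∀ p : ℕ, p.Prime → p ∣ n → z < p) :
        Finset ℕ) : Set ℕ) := by
    ext n
    simp only [coe_filter, mem_Ioc, Set.mem_ofPred_eq, and_assoc]
  rw [this]
  rfl

/-- For every `k ≥ 3` and every `ε > 0` there are constants `δ`, `c`, `C > 0` such that: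

1. For all real `0 < κ ≤ 1` and all integers `x ≥ 2`: for all but at most `C κ ^ (-4) x ^ ε` of the integers `2 ≤ n ≤ x`
EVERY interval `(u, u + h]` of length `h ≥ κ n` with `n ^ 2 - n ≤ u` and `u + h ≤ n ^ 2 + n` contains at least `c h / log n`
integers with exactly `k` prime factors (counted with multiplicity), all larger than `n ^ δ`.

2. For all integers `1 ≤ H ≤ X`, `X ≥ 2`: for all but at most `C X ^ ε (X / H) ^ 4` of the integers `n` in `(X, 2 X]` every
interval `(u, u + h]` of length `h ≥ H` with `n ^ 2 - n ≤ u` and `u + h ≤ n ^ 2 + n` contains at least `c h / log n` integers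
with exactly `k` prime factors, all larger than `n ^ δ`.

3. For all integers `Y ≥ 2`, `H ≥ 1` with `H ^ 2 ≤ Y`: if `B` is a set of integers in `[Y, 9 Y]` with distances at least `H`
such that each window `(y, y + H]`, `y ∈ B`, contains fewer than `c H / log Y` integers with exactly `k` prime factors, all
larger than `Y ^ δ`, then `B` has at most `C Y ^ ε (Y / H ^ 2) ^ 2` elements. -/
theorem result : ∀ k : ℕ, 3 ≤ k → ∀ ε : ℝ, 0 < ε → ∃ δ c C : ℝ, 0 < δ ∧ 0 < c ∧ 0 < C ∧
    (∀ κ : ℝ, 0 < κ → κ ≤ 1 → ∀ x : ℕ, 2 ≤ x →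
      (Nat.card {n : ℕ | 2 ≤ n ∧ n ≤ x ∧ ∃ u h : ℕ, κ * n ≤ h ∧ n ^ 2 - n ≤ u ∧ u + h ≤ n ^ 2 + n ∧
        (count k ((n : ℝ) ^ δ) u h : ℝ) < c * h / Real.log n} : ℝ) ≤ C / κ ^ 4 * (x : ℝ) ^ ε) ∧
    (∀ X H : ℕ, 2 ≤ X → 1 ≤ H → H ≤ X →
      (Nat.card {n : ℕ | X < n ∧ n ≤ 2 * X ∧ ∃ u h : ℕ, H ≤ h ∧ n ^ 2 - n ≤ u ∧ u + h ≤ n ^ 2 + n ∧
        (count k ((n : ℝ) ^ δ) u h : ℝ) < c * h / Real.log n} : ℝ) ≤ C * (X : ℝ) ^ ε * ((X : ℝ) / H) ^ 4) ∧
    (∀ Y H : ℕ, 2 ≤ Y → 1 ≤ H → H ^ 2 ≤ Y → ∀ B : Finset ℕ, (∀ y ∈ B, Y ≤ y ∧ y ≤ 9 * Y) →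
      (∀ x ∈ B, ∀ y ∈ B, x < y → x + H ≤ y) →
        (∀ y ∈ B, (count k ((Y : ℝ) ^ δ) y H : ℝ) < c * H / Real.log Y) →
          (B.card : ℝ) ≤ C * (Y : ℝ) ^ ε * ((Y : ℝ) / H ^ 2) ^ 2) := by
  have h := Pool.Agent.Helper34.EK.fin (Pool.Agent.Helper34.EK.gg
    (Pool.Agent.Helper34.EK.w (Pool.Agent.Helper34.EK.v' (Pool.Agent.Helper34.EK.v Pool.Agent.Helper34.EK.a1
      Pool.Agent.Helper34.EK.a2 Pool.Agent.Helper34.EK.b)))
    (Pool.Agent.Helper34.EK.r Pool.Agent.Helper34.EK.a1))
  unfold Pool.Agent.Helper34.EK.S_F at h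
  simp only [count_eq] at h
  exact h

end Pool.Agent.Results.MP_bf4c7f_nt.ExactlyKPrimes
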