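import Mathlib
import Pool.Agent.Helper34.EK.A
import Pool.Agent.Helper34.EK.B
import Pool.Agent.Helper34.EK.R
import Pool.Agent.Helper34.EK.V4
import Pool.Agent.Helper34.EK.V5
import Pool.Agent.Helper34.EK.N2
import Pool.Agent.Helper34.EK.M

/-!
# Integers with exactly `k ≥ 3` prime factors very close to almost all squares and pronic numbers

Oppermann's conjecture asks for integers with exactly one prime factor in `(x ^ 2 - x, x ^ 2)` and in `(x ^ 2, x ^ 2 + x)`. We show
that for every `k ≥ 3` and almost all `x` all windows of length `H ≥ x ^ (1 / 2 + ε)` next to the end points of the two intervals,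
a very small part of the intervals, contain at least `c H / log x` integers with exactly `k` prime factors, all of them larger
than `x ^ δ`; the number of the exceptional `x ≤ X` is `O(X / (log X) ^ A)` for every `A`. This holds for the windows next to the
values `a x ^ 2 + b x + g` of any family of quadratic polynomials with fixed `a`, `b`, and with `g = O(H)`, uniformly in `g`.

Method. We count the products `q a p`, `q` squarefree with `k - 2` prime factors, `a` a prime of size `X ^ η`, `p` a prime. The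
products with a given `q` in the window of `x` correspond to the products `a p` in the window of length `H / q` next to
`(a x ^ 2 + b x + g) / q`. These short windows, for `x` in `(X, 2 X]` and `q` squarefree, `X / H ≤ q ≤ H / X ^ η`, are distributed
evenly: the number of the quadruples `(x, q, x', q')` whose short windows have a common point is of the expected size. So it is
enough to know the number of the products `a p` in almost all windows of length `X ^ η`, which is obtained with Parseval's
identity and Vinogradov's zero free region.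
-/

set_option autoImplicit false

namespace Pool.Agent.Results.MP_bf4c7f_nt.KPrimesNearSquares
open Finset

/-- The number of the integers `m` with `y < m ≤ y + H` which have exactly `k` prime factors (counted with multiplicity),
all larger than `z`. -/
noncomputable def count (k : ℕ) (z : ℝ) (y : ℤ) (H : ℕ) : ℕ :=
  Nat.card {m : ℕ | y < m ∧ m ≤ y + H ∧ ArithmeticFunction.cardFactors m = k ∧ ∀ p : ℕ, p.Prime → p ∣ m → z < p}

lemma count_eq (k : ℕ) (z : ℝ) {y : ℤ} (hy : 0 ≤ y) (H : ℕ) : Pool.Agent.Helper34.EK.cE k z y.toNat H = count k z y H := by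
  classical
  unfold count Pool.Agent.Helper34.EK.cE
  rw [← Nat.card_eq_finsetCard]
  have : {m : ℕ | y < m ∧ m ≤ y + H ∧ ArithmeticFunction.cardFactors m = k ∧ ∀ p : ℕ, p.Prime → p ∣ m → z < p} =
      (((Ioc y.toNat (y.toNat + H)).filter (fun n => ArithmeticFunction.cardFactors n = k ∧
        ∀ p : ℕ, p.Prime → p ∣ n → z < p) : Finset ℕ) : Set ℕ) := by
    ext n
    have e1 : (y < (n : ℤ) ∧ (n : ℤ) ≤ y + H) ↔ (y.toNat < n ∧ n ≤ y.toNat + H) := by
      constructor
      · rintro ⟨h1, h2⟩
        constructor <;> omega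
      · rintro ⟨h1, h2⟩
        constructor <;> omega
    rw [mem_coe, mem_filter, mem_Ioc, Set.mem_ofPred_eq, ← and_assoc, e1]
  rw [this]
  rfl

/-- Let `a ≥ 1`, `b` and `K` be integers, `k ≥ 3` and `ε > 0`. There are `δ`, `c > 0` such that for every `A` and all large `X`:
for all `H` with `X ^ (1 / 2 + ε) ≤ H ≤ X` and all integers `g` with `|g| ≤ K H`, for all but at most `X / (log X) ^ A` of the
integers `x` in `(X, 2 X]` there are at least `c H / log X` integers `m` with `a x ^ 2 + b x + g < m ≤ a x ^ 2 + b x + g + H` with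
exactly `k` prime factors (counted with multiplicity), all larger than `X ^ δ`. -/
theorem result : ∀ (a : ℕ) (b : ℤ) (K : ℕ), 1 ≤ a → ∀ k : ℕ, 3 ≤ k → ∀ ε : ℝ, 0 < ε → ∃ δ c : ℝ, 0 < δ ∧ 0 < c ∧
    ∀ A : ℕ, ∃ X₀ : ℕ, ∀ X : ℕ, X₀ ≤ X → ∀ H : ℕ, (X : ℝ) ^ (1 / 2 + ε) ≤ H → H ≤ X → ∀ g : ℤ, |g| ≤ K * H →
      (Nat.card {x : ℕ | X < x ∧ x ≤ 2 * X ∧
        (count k ((X : ℝ) ^ δ) (a * (x : ℤ) ^ 2 + b * x + g) H : ℝ) < c * H / Real.log X} : ℝ) ≤ X / Real.log X ^ A := by
  intro a b K ha k hk ε hε
  obtain ⟨δ, c, hδ, hc, h⟩ := Pool.Agent.Helper34.EK.mm (Pool.Agent.Helper34.EK.nn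
    (Pool.Agent.Helper34.EK.v' (Pool.Agent.Helper34.EK.v Pool.Agent.Helper34.EK.a1 Pool.Agent.Helper34.EK.a2
      Pool.Agent.Helper34.EK.b))) (Pool.Agent.Helper34.EK.r Pool.Agent.Helper34.EK.a1) a b K ha k hk ε hε
  refine ⟨δ, c, hδ, hc, ?_⟩
  intro A
  obtain ⟨X₀, hX₀⟩ := h A
  refine ⟨max X₀ (2 * b.natAbs + K + 1), ?_⟩
  intro X hX H hH hHX g hg
  have hX1 : X₀ ≤ X := (le_max_left _ _).trans hX
  have hX2 : 2 * b.natAbs + K + 1 ≤ X := (le_max_right _ _).trans hX
  refine le_trans (le_of_eq ?_) (hX₀ X hX1 H hH hHX g hg)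
  congr 2
  have : {x : ℕ | X < x ∧ x ≤ 2 * X ∧
      (count k ((X : ℝ) ^ δ) (a * (x : ℤ) ^ 2 + b * x + g) H : ℝ) < c * H / Real.log X} =
      {x : ℕ | X < x ∧ x ≤ 2 * X ∧ (Pool.Agent.Helper34.EK.cE k ((X : ℝ) ^ δ) (Pool.Agent.Helper34.NQ.fq a b g x).toNat H : ℝ) <
        c * H / Real.log X} := by
    ext x
    rw [Set.mem_ofPred_eq, Set.mem_ofPred_eq]
    constructor
    · rintro ⟨h1, h2, h3⟩
      have hsz := Pool.Agent.Helper34.EK.fq_size (a := a) (b := b) (g := g) (K₀ := K) (X := X) (H := H) (x := x) ha hX2 hHX hg h1 h2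
      refine ⟨h1, h2, ?_⟩
      rw [count_eq k _ hsz.1 H]
      exact h3
    · rintro ⟨h1, h2, h3⟩
      have hsz := Pool.Agent.Helper34.EK.fq_size (a := a) (b := b) (g := g) (K₀ := K) (X := X) (H := H) (x := x) ha hX2 hHX hg h1 h2
      rw [count_eq k _ hsz.1 H] at h3
      exact ⟨h1, h2, h3⟩
  rw [this]

end Pool.Agent.Results.MP_bf4c7f_nt.KPrimesNearSquares
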