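import Pool.Agent.Helper51.UG.Gen
import Pool.Graph.R_pool_sql_team_seeded_1acbe0a2.Y987.SZ.Forms

set_option autoImplicit false

/-!
# Homothetic copies of every finite pattern at mirror positions in both Oppermann intervals, for several squares at once

For every choice of `s` different integers `x_1, ..., x_s` consider the distances `m` for which all the `2 s` numbers
`x_i ^ 2 - m` and `x_i ^ 2 + m` have no small prime factor. Let `A` be an ARBITRARY set of such distances, for instance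
distances for which all `2 s` numbers are primes. For all but at most `δ X V` of the members `m` of `A` the set `m + d T` is
contained in `A` for at least `D ^ (1 - ε)` of the dilations `d ≤ D`, for EVERY finite set `T` of at most `k` integers in
`[-H, H]`; `X V` is the expected order of magnitude of the number of such distances in a window of length `X`. All of this
is uniform in the `x_i`, in `T`, and in `H` up to a power of `X`, and holds in subintervals of length `X ≥ x_i ^ (1 / C)` of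
Oppermann's intervals. If there is no local obstruction, in particular for `s = 1`, at least `c X V` distances have all
these copies, and all the `2 s` numbers are then almost primes.
-/

namespace Pool.Agent.Results.MP_bf4c7f_nt.MirroredConstellations

open Finset Filter
open Pool.Agent.Helper51.UG (FZ VV RG cps FormsOK)
open Pool.Agent.Y677.RSZ (rt)

/-- The distances `m ∈ (u, u + X]` for which all prime factors of all the numbers `x_i ^ 2 + m`, `x_i ^ 2 - m` are larger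
than `z`. -/
def Common {s : ℕ} (x : Fin s → ℕ) (z : ℝ) (u X : ℕ) : Set ℕ :=
  {m | u < m ∧ m ≤ u + X ∧
    ∀ i, ∀ p : ℕ, p.Prime → (p ∣ x i ^ 2 + m ∨ p ∣ x i ^ 2 - m) → z < p}

/-- The number of the residues `c` modulo `p` such that `p` divides some `x_i ^ 2 + c` or some `x_i ^ 2 - c`. -/
def nu {s : ℕ} (x : Fin s → ℕ) (p : ℕ) : ℕ :=
  ((range p).filter (fun c : ℕ => ∃ i, (p : ℤ) ∣ (x i : ℤ) ^ 2 + c ∨ (p : ℤ) ∣ (x i : ℤ) ^ 2 - c)).card

/-- The product of `1 - nu p / p` over the primes `p ≤ z`. -/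
noncomputable def V {s : ℕ} (x : Fin s → ℕ) (z : ℕ) : ℝ :=
  ∏ p ∈ (Icc 1 z).filter Nat.Prime, (1 - (nu x p : ℝ) / p)

/-- The number of the dilations `1 ≤ d ≤ D` for which all the numbers `m + d t`, `t ∈ T`, belong to `A`. -/
noncomputable def scales (A : Set ℕ) (T : Finset ℤ) (D m : ℕ) : ℕ :=
  {d : ℕ | 1 ≤ d ∧ d ≤ D ∧ ∀ t ∈ T, ∃ a ∈ A, (a : ℤ) = m + d * t}.ncard

/-- the coefficients -/
def sg (s : ℕ) (i : Fin (2 * s)) : ℤ := if (i : ℕ) % 2 = 0 then 1 else -1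

/-- the constant terms -/
def ct {s : ℕ} (x : Fin s → ℕ) (i : Fin (2 * s)) : ℤ := (x ⟨(i : ℕ) / 2, by omega⟩ : ℤ) ^ 2

theorem sg_cases (s : ℕ) (i : Fin (2 * s)) : sg s i = 1 ∨ sg s i = -1 := by
  unfold sg
  split_ifs
  · exact Or.inl rfl
  · exact Or.inr rfl

theorem forms_iff {s : ℕ} (x : Fin s → ℕ) (p : ℤ) (m : ℤ) :
    (∃ j, p ∣ sg s j * m + ct x j) ↔ ∃ i, p ∣ (x i : ℤ) ^ 2 + m ∨ p ∣ (x i : ℤ) ^ 2 - m := by
  constructor
  · rintro ⟨j, hj⟩
    refine ⟨⟨(j : ℕ) / 2, by omega⟩, ?_⟩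
    unfold sg ct at hj
    split_ifs at hj
    · left
      rw [one_mul, add_comm] at hj
      exact hj
    · right
      have e : -1 * m + (x ⟨(j : ℕ) / 2, by omega⟩ : ℤ) ^ 2 =
        (x ⟨(j : ℕ) / 2, by omega⟩ : ℤ) ^ 2 - m := by ring
      rw [e] at hj
      exact hj
  · rintro ⟨i, hi | hi⟩
    · refine ⟨⟨2 * (i : ℕ), by omega⟩, ?_⟩
      unfold sg ct
      have e0 : ((⟨2 * (i : ℕ), by omega⟩ : Fin (2 * s)) : ℕ) % 2 = 0 := by
        show (2 * (i : ℕ)) % 2 = 0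
        omega
      rw [if_pos e0]
      have e1 : (⟨((⟨2 * (i : ℕ), by omega⟩ : Fin (2 * s)) : ℕ) / 2, by omega⟩ : Fin s) = i := by
        apply Fin.ext
        show 2 * (i : ℕ) / 2 = i
        omega
      rw [e1, one_mul, add_comm]
      exact hi
    · refine ⟨⟨2 * (i : ℕ) + 1, by omega⟩, ?_⟩
      unfold sg ct
      have e0 : ¬ ((⟨2 * (i : ℕ) + 1, by omega⟩ : Fin (2 * s)) : ℕ) % 2 = 0 := by
        show ¬ (2 * (i : ℕ) + 1) % 2 = 0
        omega
      rw [if_neg e0]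
      have e1 : (⟨((⟨2 * (i : ℕ) + 1, by omega⟩ : Fin (2 * s)) : ℕ) / 2, by omega⟩ : Fin s) = i := by
        apply Fin.ext
        show (2 * (i : ℕ) + 1) / 2 = i
        omega
      rw [e1]
      have e : -1 * m + (x i : ℤ) ^ 2 = (x i : ℤ) ^ 2 - m := by ring
      rw [e]
      exact hi

theorem V_eq {s : ℕ} (x : Fin s → ℕ) (z : ℕ) : VV (FZ (sg s) (ct x)) z = V x z := by
  unfold VV V
  refine prod_congr rfl fun p hp => ?_
  rw [mem_filter] at hp
  have h1 : rt (FZ (sg s) (ct x)) p = nu x p := by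
    unfold rt nu
    congr 1
    apply filter_congr
    intro c _
    rw [Pool.Agent.Helper51.UG.FZ_dvd _ _ hp.2]
    exact forms_iff x p c
  rw [h1]

theorem common_eq {s : ℕ} (x : Fin s → ℕ) (z : ℝ) (u X : ℕ) (hx : ∀ i, u + X < x i) :
    Common x z u X = RG (sg s) (ct x) z u X := by
  ext m
  have hle : m ≤ u + X → ∀ i, m ≤ x i ^ 2 := by
    intro hm i
    have := hx i
    nlinarith
  have key : m ≤ u + X → ∀ (i : Fin s) (p : ℕ), (p ∣ x i ^ 2 + m ∨ p ∣ x i ^ 2 - m) ↔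
      ((p : ℤ) ∣ (x i : ℤ) ^ 2 + m ∨ (p : ℤ) ∣ (x i : ℤ) ^ 2 - m) := by
    intro hm i p
    have e1 : ((x i : ℤ) ^ 2 + m) = ((x i ^ 2 + m : ℕ) : ℤ) := by push_cast; ring
    have e2 : ((x i : ℤ) ^ 2 - m) = ((x i ^ 2 - m : ℕ) : ℤ) := by
      rw [Nat.cast_sub (hle hm i)]
      push_cast
      ring
    rw [e1, e2, Int.natCast_dvd_natCast, Int.natCast_dvd_natCast]
  constructor
  · rintro ⟨h1, h2, h3⟩
    refine ⟨h1, h2, fun j q hq hd => ?_⟩
    obtain ⟨i, hi⟩ := (forms_iff x q m).1 ⟨j, hd⟩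
    exact h3 i q hq ((key h2 i q).2 hi)
  · rintro ⟨h1, h2, h3⟩
    refine ⟨h1, h2, fun i q hq hd => ?_⟩
    obtain ⟨j, hj⟩ := (forms_iff x q m).2 ⟨i, (key h2 i q).1 hd⟩
    exact h3 j q hq hj

theorem ok {s : ℕ} (x : Fin s → ℕ) (hinj : Function.Injective x) (C u X : ℕ)
    (hx : ∀ i, u + X < x i ∧ x i ≤ X ^ C) (hX : 1 ≤ X) : FormsOK 1 (2 * C) X u (sg s) (ct x) := by
  refine ⟨fun j => ⟨?_, ?_, ?_⟩, fun i j hij => ?_, fun j n hn1 hn2 => ?_⟩
  · rcases sg_cases s j with h | h <;> rw [h] <;> norm_num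
  · rcases sg_cases s j with h | h <;> rw [h] <;> norm_num
  · unfold ct
    rw [abs_of_nonneg (by positivity)]
    have h1 := (hx ⟨(j : ℕ) / 2, by omega⟩).2
    have h2 : x ⟨(j : ℕ) / 2, by omega⟩ ^ 2 ≤ (X ^ C) ^ 2 := Nat.pow_le_pow_left h1 2
    rw [← pow_mul, mul_comm C 2] at h2
    exact_mod_cast h2
  · have hpos : ∀ j : Fin (2 * s), 0 < ct x j := by
      intro j
      unfold ct
      have h1 := (hx ⟨(j : ℕ) / 2, by omega⟩).1
      have h2 : 0 < x ⟨(j : ℕ) / 2, by omega⟩ := by omega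
      positivity
    have hi := hpos i
    have hj := hpos j
    intro h0
    have hsgeq : sg s i = sg s j ∧ ct x i = ct x j := by
      rcases sg_cases s i with e1 | e1 <;> rcases sg_cases s j with e2 | e2
      · rw [e1, e2] at h0 ⊢
        exact ⟨rfl, by linarith⟩
      · rw [e1, e2] at h0
        linarith
      · rw [e1, e2] at h0
        linarith
      · rw [e1, e2] at h0 ⊢
        exact ⟨rfl, by linarith⟩
    apply hij
    obtain ⟨h1, h2⟩ := hsgeq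
    have h3 : (i : ℕ) / 2 = (j : ℕ) / 2 := by
      unfold ct at h2
      have h4 : (x ⟨(i : ℕ) / 2, by omega⟩ : ℤ) = (x ⟨(j : ℕ) / 2, by omega⟩ : ℤ) := by
        have h5 : (0 : ℤ) ≤ (x ⟨(i : ℕ) / 2, by omega⟩ : ℤ) := by positivity
        have h6 : (0 : ℤ) ≤ (x ⟨(j : ℕ) / 2, by omega⟩ : ℤ) := by positivity
        exact (pow_left_inj₀ h5 h6 (by norm_num)).1 h2
      have h5 := hinj (Int.natCast_inj.1 h4)
      exact congrArg Fin.val h5
    have h4 : (i : ℕ) % 2 = (j : ℕ) % 2 := by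
      unfold sg at h1
      by_cases e1 : (i : ℕ) % 2 = 0
      · by_cases e2 : (j : ℕ) % 2 = 0
        · omega
        · rw [if_pos e1, if_neg e2] at h1
          norm_num at h1
      · by_cases e2 : (j : ℕ) % 2 = 0
        · rw [if_neg e1, if_pos e2] at h1
          norm_num at h1
        · omega
    apply Fin.ext
    omega
  · have h1 := (hx ⟨(j : ℕ) / 2, by omega⟩).1
    have h2 : n < x ⟨(j : ℕ) / 2, by omega⟩ ^ 2 := by nlinarith
    have h3 : (n : ℤ) < ct x j := by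
      unfold ct
      exact_mod_cast h2
    rcases sg_cases s j with e | e
    · rw [e]
      have : (0 : ℤ) ≤ n := by positivity
      linarith
    · rw [e]
      linarith

theorem adm {s : ℕ} (x : Fin s → ℕ)
    (h : ∀ p : ℕ, p.Prime → p ≤ 2 * s → ∃ m : ℕ, ∀ i,
      ¬ (p : ℤ) ∣ (x i : ℤ) ^ 2 + m ∧ ¬ (p : ℤ) ∣ (x i : ℤ) ^ 2 - m) :
    ∀ p : ℕ, p.Prime → ∃ n : ℕ, ∀ j, ¬ (p : ℤ) ∣ sg s j * n + ct x j := by
  intro p hp
  by_cases hps : p ≤ 2 * s
  · obtain ⟨m, hm⟩ := h p hp hps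
    refine ⟨m, fun j hd => ?_⟩
    obtain ⟨i, hi⟩ := (forms_iff x p m).1 ⟨j, hd⟩
    rcases hi with hi | hi
    · exact (hm i).1 hi
    · exact (hm i).2 hi
  · have h1 : rt (FZ (sg s) (ct x)) p ≤ 2 * s := by
      apply Pool.Agent.Helper51.UG.rt_leZ _ _ p hp
      intro i hi
      have h2 : (p : ℤ) ∣ 1 := by
        rcases sg_cases s i with h3 | h3
        · rw [h3] at hi
          exact hi
        · rw [h3] at hi
          exact (dvd_neg).1 hi
      have h3 := Int.le_of_dvd one_pos h2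
      have := hp.two_le
      omega
    by_contra hcon
    push Not at hcon
    have h2 : rt (FZ (sg s) (ct x)) p = p := by
      unfold rt
      rw [filter_true_of_mem, card_range]
      intro c _
      obtain ⟨j, hj⟩ := hcon c
      exact (Pool.Agent.Helper51.UG.FZ_dvd _ _ hp _).2 ⟨j, hj⟩
    omega

theorem ex_n {s : ℕ} (x : Fin s → ℕ) (y : ℕ)
    (h : ∀ p : ℕ, p.Prime → ∃ n : ℕ, ∀ j, ¬ (p : ℤ) ∣ sg s j * n + ct x j) :
    ∃ n : ℤ, ∀ p : ℕ, p.Prime → p ≤ y → ¬ (p : ℤ) ∣ FZ (sg s) (ct x) n := by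
  classical
  obtain ⟨a, ha⟩ := Pool.Agent.Y987.SZ.exists_class
    (fun p => (range p).filter (fun r : ℕ => (p : ℤ) ∣ FZ (sg s) (ct x) r)) y (by
      intro p hp
      have hpp := (mem_filter.1 hp).2
      obtain ⟨n, hn⟩ := h p hpp
      refine lt_of_lt_of_eq (card_lt_card ?_) (card_range p)
      refine (filter_ssubset).2 ⟨n % p, mem_range.2 (Nat.mod_lt _ hpp.pos), fun hd => ?_⟩
      rw [Pool.Agent.Helper51.UG.FZ_dvd _ _ hpp] at hd
      obtain ⟨i, hi⟩ := hd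
      exact hn i ((Pool.Agent.Helper51.UG.per_mod _ _ hpp n i).2 hi))
  refine ⟨a, fun p hp hpy hd => ?_⟩
  have hp1 : p ∈ Pool.Agent.Y843.HS.Pr 0 y := by
    unfold Pool.Agent.Y843.HS.Pr
    rw [mem_filter, mem_Ioc]
    exact ⟨⟨hp.pos, hpy⟩, hp⟩
  apply ha p hp1
  rw [mem_filter, mem_range]
  refine ⟨Nat.mod_lt _ hp.pos, ?_⟩
  rw [Pool.Agent.Helper51.UG.FZ_dvd _ _ hp] at hd ⊢
  obtain ⟨i, hi⟩ := hd
  exact ⟨i, (Pool.Agent.Helper51.UG.per_mod _ _ hp a i).1 hi⟩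

/-- **Homothetic copies of every pattern at mirror positions in Oppermann's intervals, for several squares at once.** -/
theorem result (s : ℕ) (hs : 1 ≤ s) :
    -- (1) arbitrary sets of distances
    (∀ (C k : ℕ) (ε θ δ : ℝ), 0 < ε → ε < 1 → 0 < θ → θ ≤ 1 → 0 < δ → ∃ X₀ : ℕ, ∀ X H D u : ℕ, X₀ ≤ X →
      1 ≤ H → (X : ℝ) ^ ε ≤ D → (D : ℝ) * H ≤ (X : ℝ) ^ (1 - ε) →
      ∀ x : Fin s → ℕ, Function.Injective x → (∀ i, u + X < x i ∧ x i ≤ X ^ C) →
      ∀ A ⊆ Common x ((X : ℝ) ^ θ) u X, ∀ T : Finset ℤ, T.card ≤ k → (∀ t ∈ T, |t| ≤ H) →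
        ({m : ℕ | m ∈ A ∧ (scales A T D m : ℝ) < (D : ℝ) ^ (1 - ε)}.ncard : ℝ) ≤
          δ * (X * V x ⌊(X : ℝ) ^ θ⌋₊)) ∧
    -- (2) almost primes
    ∃ θ c : ℝ, 0 < θ ∧ θ ≤ 1 ∧ 0 < c ∧ ∀ C : ℕ, ∃ R : ℕ, ∀ (k : ℕ) (ε : ℝ), 0 < ε → ε < 1 →
      ∃ X₀ : ℕ, ∀ X H D u : ℕ, X₀ ≤ X →
      1 ≤ H → (X : ℝ) ^ ε ≤ D → (D : ℝ) * H ≤ (X : ℝ) ^ (1 - ε) →
      ∀ x : Fin s → ℕ, Function.Injective x → (∀ i, u + X < x i ∧ x i ≤ X ^ C) →
      (∀ m ∈ Common x ((X : ℝ) ^ θ) u X, ∀ i,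
        (x i ^ 2 - x i < x i ^ 2 - m ∧ x i ^ 2 - m < x i ^ 2 ∧
          (x i ^ 2 - m).primeFactorsList.length ≤ R) ∧
        (x i ^ 2 < x i ^ 2 + m ∧ x i ^ 2 + m < x i ^ 2 + x i ∧
          (x i ^ 2 + m).primeFactorsList.length ≤ R)) ∧
      ((∀ p : ℕ, p.Prime → p ≤ 2 * s → ∃ m : ℕ, ∀ i,
          ¬ (p : ℤ) ∣ (x i : ℤ) ^ 2 + m ∧ ¬ (p : ℤ) ∣ (x i : ℤ) ^ 2 - m) →
        c / Real.log X ^ (2 * s) ≤ V x ⌊(X : ℝ) ^ θ⌋₊ ∧
        ∀ T : Finset ℤ, T.card ≤ k → (∀ t ∈ T, |t| ≤ H) →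
        c * (X * V x ⌊(X : ℝ) ^ θ⌋₊) ≤ ({m : ℕ | m ∈ Common x ((X : ℝ) ^ θ) u X ∧
          (D : ℝ) ^ (1 - ε) ≤ (scales (Common x ((X : ℝ) ^ θ) u X) T D m : ℝ)}.ncard : ℝ)) := by
  refine ⟨?_, ?_⟩
  · intro C k ε θ δ hε hε1 hθ hθ1 hδ
    obtain ⟨X₀, h⟩ := Pool.Agent.Helper51.UG.ptSetU (2 * s) 1 (2 * C + 1) k ε (θ / 2) δ hε hε1
      (by positivity) hδ
    obtain ⟨X₁, hX₁⟩ := Pool.Agent.Helper51.UD.ev_rpow 2 (θ / 2) (by positivity)
    refine ⟨max (max X₀ X₁) 1, fun X H D u hX hH hD hDH x hinj hx A hA T hTk hT => ?_⟩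
    have g0 : X₀ ≤ X := ((le_max_left _ _).trans (le_max_left _ _)).trans hX
    have g1 := hX₁ X (((le_max_right _ _).trans (le_max_left _ _)).trans hX)
    have g2 : 1 ≤ X := (le_max_right _ _).trans hX
    have hX1 : (1 : ℝ) ≤ X := by exact_mod_cast g2
    have hX0 : (0 : ℝ) < X := by linarith
    have hf := ok x hinj C u X hx g2
    have hu : u ≤ X ^ (2 * C + 1) := by
      have h1 := hx ⟨0, by omega⟩
      have h2 : X ^ C ≤ X ^ (2 * C + 1) := Nat.pow_le_pow_right g2 (by omega)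
      omega
    rw [common_eq x _ u X (fun i => (hx i).1)] at hA
    have h1 := h X H D u ⌊(X : ℝ) ^ θ⌋₊ g0 hu (by
        have e1 : (X : ℝ) ^ θ = (X : ℝ) ^ (θ / 2) * (X : ℝ) ^ (θ / 2) := by
          rw [← Real.rpow_add hX0]
          congr 1
          ring
        have e2 : (X : ℝ) ^ θ < (⌊(X : ℝ) ^ θ⌋₊ : ℝ) + 1 := Nat.lt_floor_add_one _
        nlinarith) (by
        have e1 : (⌊(X : ℝ) ^ θ⌋₊ : ℝ) ≤ X := by
          refine (Nat.floor_le (by positivity)).trans ?_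
          calc (X : ℝ) ^ θ ≤ (X : ℝ) ^ (1 : ℝ) := Real.rpow_le_rpow_of_exponent_le hX1 hθ1
            _ = X := Real.rpow_one _
        have e2 : ⌊(X : ℝ) ^ θ⌋₊ ≤ X := by exact_mod_cast e1
        exact e2.trans (Nat.le_self_pow (Nat.succ_ne_zero _) X))
      hH hD hDH _ _ (by
        refine ⟨fun i => ⟨(hf.1 i).1, (hf.1 i).2.1, (hf.1 i).2.2.trans ?_⟩, hf.2.1, hf.2.2⟩
        exact_mod_cast Nat.pow_le_pow_right g2 (Nat.le_succ (2 * C))) A
      (fun m hm => ⟨(hA hm).1, (hA hm).2.1, fun i q hq hqd =>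
        (Nat.floor_lt (by positivity)).2 ((hA hm).2.2 i q hq hqd)⟩)
      T hTk hT
    rw [V_eq] at h1
    exact h1
  · obtain ⟨θ, c, hθ0, hθ1, hc, h⟩ := Pool.Agent.Helper51.UG.genU (2 * s)
    obtain ⟨c₂, hc₂, y₀, hy₀, hlow⟩ := Pool.Agent.Helper51.UG.lowV (2 * s) 1
    refine ⟨θ, min c c₂, hθ0, hθ1, lt_min hc hc₂, fun C => ?_⟩
    obtain ⟨R, hR⟩ : ∃ R : ℕ, (2 * C + 1) / θ ≤ (R : ℝ) := ⟨_, Nat.le_ceil _⟩
    refine ⟨R, fun k ε hε hε1 => ?_⟩
    obtain ⟨X₀, h⟩ := h (2 * C) k ε hε hε1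
    obtain ⟨X₁, hX₁⟩ := Pool.Agent.Helper51.UD.ev_rpow (max y₀ 3) θ hθ0
    refine ⟨max (max X₀ X₁) 3, fun X H D u hX hH hD hDH x hinj hx => ⟨?_, fun hadm => ?_⟩⟩
    · -- the numbers of prime factors
      intro m hm i
      have g2 : 3 ≤ X := (le_max_right _ _).trans hX
      have hX1 : (3 : ℝ) ≤ X := by exact_mod_cast g2
      have hX0 : (0 : ℝ) < X := by linarith
      obtain ⟨h1, h2, h3⟩ := hm
      obtain ⟨h4, h5⟩ := hx i
      have h6 : m < x i := by omega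
      have h7 : x i ≤ x i ^ 2 := Nat.le_self_pow (by norm_num) _
      have h8 : x i ^ 2 ≤ X ^ (2 * C) := by
        have := Nat.pow_le_pow_left h5 2
        rwa [← pow_mul, mul_comm C 2] at this
      have h9 : x i ^ 2 + m ≤ X ^ (2 * C + 1) := by
        have e : X ^ (2 * C + 1) = X ^ (2 * C) * X := pow_succ _ _
        have e2 : X ^ (2 * C) * 2 ≤ X ^ (2 * C) * X := Nat.mul_le_mul_left _ (by omega)
        omega
      have hy1 : 1 ≤ (X : ℝ) ^ θ := Real.one_le_rpow (by linarith) hθ0.le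
      have hyR : ((X ^ (2 * C + 1) : ℕ) : ℝ) < ((X : ℝ) ^ θ) ^ (R + 1) := by
        rw [← Real.rpow_natCast ((X : ℝ) ^ θ) (R + 1), ← Real.rpow_mul hX0.le, Nat.cast_pow,
          ← Real.rpow_natCast (X : ℝ) (2 * C + 1)]
        apply Real.rpow_lt_rpow_of_exponent_lt (by linarith)
        rw [div_le_iff₀ hθ0] at hR
        push_cast
        nlinarith
      have key : ∀ v : ℕ, v ≠ 0 → v ≤ X ^ (2 * C + 1) →
          (∀ p : ℕ, p.Prime → p ∣ v → (X : ℝ) ^ θ < p) → v.primeFactorsList.length ≤ R := by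
        intro v hv0 hv hp
        exact Pool.Agent.Y987.SZ.len_rough hy1 hv0 (lt_of_le_of_lt (by exact_mod_cast hv) hyR) hp
      exact ⟨⟨by omega, by omega, key _ (by omega) (by omega) fun p hp hpd => h3 i p hp (Or.inr hpd)⟩,
        ⟨by omega, by omega, key _ (by omega) h9 fun p hp hpd => h3 i p hp (Or.inl hpd)⟩⟩
    · have g0 : X₀ ≤ X := ((le_max_left _ _).trans (le_max_left _ _)).trans hX
      have g1 := hX₁ X (((le_max_right _ _).trans (le_max_left _ _)).trans hX)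
      have g2 : 3 ≤ X := (le_max_right _ _).trans hX
      have hX1 : (3 : ℝ) ≤ X := by exact_mod_cast g2
      have hX0 : (0 : ℝ) < X := by linarith
      have hlogX : 0 < Real.log X := Real.log_pos (by linarith)
      have hf := ok x hinj C u X hx (by omega)
      have hu : u ≤ X ^ (2 * C) := by
        have h1 := hx ⟨0, by omega⟩
        have h2 : X ^ C ≤ X ^ (2 * C) := Nat.pow_le_pow_right (by omega) (by omega)
        omega
      have hadm' := adm x hadm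
      obtain ⟨h1, h2⟩ := h X H D u g0 hu hH hD hDH _ _ hf hadm'
      rw [V_eq] at h1 h2
      rw [common_eq x _ u X (fun i => (hx i).1)]
      refine ⟨?_, fun T hTk hT => ?_⟩
      · have hy : y₀ ≤ ⌊(X : ℝ) ^ θ⌋₊ := Nat.le_floor ((le_max_left _ _).trans g1)
        have hy3 : 3 ≤ ⌊(X : ℝ) ^ θ⌋₊ := Nat.le_floor (by
          push_cast
          exact (le_max_right _ _).trans g1)
        have h3 := hlow _ _ (fun i => ⟨(hf.1 i).1, (hf.1 i).2.1⟩) _ hy (ex_n x _ hadm')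
        rw [V_eq] at h3
        refine le_trans ?_ h3
        have hy3r : (3 : ℝ) ≤ (⌊(X : ℝ) ^ θ⌋₊ : ℝ) := by exact_mod_cast hy3
        have hlogy : 0 < Real.log (⌊(X : ℝ) ^ θ⌋₊ : ℝ) := Real.log_pos (by linarith)
        have hyX : (⌊(X : ℝ) ^ θ⌋₊ : ℝ) ≤ X := by
          refine (Nat.floor_le (by positivity)).trans ?_
          calc (X : ℝ) ^ θ ≤ (X : ℝ) ^ (1 : ℝ) :=
                Real.rpow_le_rpow_of_exponent_le (by linarith) hθ1
            _ = X := Real.rpow_one _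
        calc min c c₂ / Real.log X ^ (2 * s) ≤ c₂ / Real.log X ^ (2 * s) :=
              div_le_div_of_nonneg_right (min_le_right _ _) (by positivity)
          _ ≤ c₂ / Real.log (⌊(X : ℝ) ^ θ⌋₊ : ℝ) ^ (2 * s) := by
              apply div_le_div_of_nonneg_left hc₂.le (by positivity)
              exact pow_le_pow_left₀ hlogy.le (Real.log_le_log (by linarith) hyX) _
      · refine le_trans ?_ (h2 T hTk hT)
        apply mul_le_mul_of_nonneg_right (min_le_left _ _)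
        rw [← V_eq]
        exact mul_nonneg hX0.le (Pool.Agent.Helper51.UG.VV_nn _ _)

end Pool.Agent.Results.MP_bf4c7f_nt.MirroredConstellations
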